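import Mathlib

set_option autoImplicit false
set_option linter.unusedSectionVars false

namespace Pool.Agent.H626.CF

open Finset Module InnerProductSpace

variable {E : Type*} [NormedAddCommGroup E] [InnerProductSpace ℝ E] [FiniteDimensional ℝ E]

/-- Gram-Schmidt adapted to the decreasing order of the values `a`. -/
theorem gs {ι : Type*} [Fintype ι] (u : ι → E) (hu : LinearIndependent ℝ u) (a : ι → ℝ) :
    ∃ e : ι → E, Orthonormal ℝ e ∧ ∀ j, e j ∈ Submodule.span ℝ (u '' {i | a j ≤ a i}) := by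
  classical
  set N := Fintype.card ι with hN
  let eqv : Fin N ≃ ι := (Fintype.equivFin ι).symm
  let g : Fin N → ℝ := fun k => -a (eqv k)
  let τ : Fin N ≃ ι := (Tuple.sort g).trans eqv
  have hmono : ∀ i j : Fin N, i ≤ j → a (τ j) ≤ a (τ i) := by
    intro i j hij
    have := Tuple.monotone_sort g hij
    simp only [g, Function.comp] at this
    have h2 : -a (τ i) ≤ -a (τ j) := this
    linarith
  have hu' : LinearIndependent ℝ (u ∘ τ) := hu.comp τ τ.injective
  refine ⟨(gramSchmidtNormed ℝ (u ∘ τ)) ∘ τ.symm, ?_, ?_⟩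
  · exact (gramSchmidtNormed_orthonormal hu').comp _ τ.symm.injective
  · intro j
    have h1 : gramSchmidt ℝ (u ∘ τ) (τ.symm j)
        ∈ Submodule.span ℝ ((u ∘ τ) '' Set.Iic (τ.symm j)) :=
      gramSchmidt_mem_span ℝ (u ∘ τ) le_rfl
    have h2 : Submodule.span ℝ ((u ∘ τ) '' Set.Iic (τ.symm j))
        ≤ Submodule.span ℝ (u '' {i | a j ≤ a i}) := by
      apply Submodule.span_mono
      rintro x ⟨i, hi, rfl⟩
      refine ⟨τ i, ?_, rfl⟩
      have := hmono i (τ.symm j) hi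
      simpa using this
    have h3 := h2 h1
    simp only [Function.comp, gramSchmidtNormed]
    exact Submodule.smul_mem _ _ h3

/-- Courant-Fischer comparison: the positive eigenvalues of a symmetric operator dominate the
positive values of `a`, when the operator is at least `a j` on the span of the `u i` with
`a j ≤ a i`. -/
theorem cf {ι κ : Type*} [Fintype ι] [Fintype κ] (T : E →ₗ[ℝ] E)
    (hT : ∀ x y, inner ℝ (T x) y = inner ℝ x (T y))
    (b : OrthonormalBasis κ ℝ E) (μ : κ → ℝ) (hb : ∀ i, T (b i) = μ i • b i)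
    (u : ι → E) (hu : LinearIndependent ℝ u) (a : ι → ℝ)
    (ha : ∀ j, ∀ v ∈ Submodule.span ℝ (u '' {i | a j ≤ a i}),
      a j * ‖v‖ ^ 2 ≤ inner ℝ (T v) v) :
    ∑ j, (max (a j) 0) ^ 2 ≤ ∑ i, (max (μ i) 0) ^ 2 := by
  classical
  obtain ⟨e, heo, hes⟩ := gs u hu a
  set c : κ → ι → ℝ := fun i j => inner ℝ (b i) (e j) with hc
  have hnorm : ∀ j, ‖e j‖ = 1 := fun j => heo.1 j
  have hsum1 : ∀ j, ∑ i, (c i j) ^ 2 = 1 := by
    intro j
    have := b.sum_sq_norm_inner_right (e j)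
    rw [hnorm j, one_pow] at this
    rw [← this]
    refine Finset.sum_congr rfl fun i _ => ?_
    simp only [hc, Real.norm_eq_abs, sq_abs]
  have hsum2 : ∀ i, ∑ j, (c i j) ^ 2 ≤ 1 := by
    intro i
    have h1 := heo.sum_inner_products_le (b i) (s := Finset.univ)
    have h2 : ‖b i‖ = 1 := b.orthonormal.1 i
    rw [h2, one_pow] at h1
    refine le_trans (le_of_eq ?_) h1
    refine Finset.sum_congr rfl fun j _ => ?_
    simp only [hc, Real.norm_eq_abs, sq_abs]
    rw [real_inner_comm]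
  have hquad : ∀ j, inner ℝ (T (e j)) (e j) = ∑ i, μ i * (c i j) ^ 2 := by
    intro j
    rw [← b.sum_inner_mul_inner (T (e j)) (e j)]
    refine Finset.sum_congr rfl fun i _ => ?_
    rw [hT, hb, inner_smul_right, real_inner_comm]
    simp only [hc]
    ring
  have hj : ∀ j, (max (a j) 0) ^ 2 ≤ ∑ i, (max (μ i) 0) ^ 2 * (c i j) ^ 2 := by
    intro j
    have h1 : a j ≤ ∑ i, max (μ i) 0 * (c i j) ^ 2 := by
      have := ha j (e j) (hes j)
      rw [hnorm j, one_pow, mul_one, hquad j] at this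
      refine this.trans (Finset.sum_le_sum fun i _ => ?_)
      exact mul_le_mul_of_nonneg_right (le_max_left _ _) (sq_nonneg _)
    have h0 : 0 ≤ ∑ i, max (μ i) 0 * (c i j) ^ 2 :=
      Finset.sum_nonneg fun i _ => mul_nonneg (le_max_right _ _) (sq_nonneg _)
    have h2 : max (a j) 0 ≤ ∑ i, max (μ i) 0 * (c i j) ^ 2 := max_le h1 h0
    have h3 : (max (a j) 0) ^ 2 ≤ (∑ i, max (μ i) 0 * (c i j) ^ 2) ^ 2 :=
      pow_le_pow_left₀ (le_max_right _ _) h2 2
    have h4 := Finset.sum_mul_sq_le_sq_mul_sq Finset.univ (fun i => max (μ i) 0 * c i j)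
      (fun i => c i j)
    rw [hsum1 j, mul_one] at h4
    have e1 : (∑ i, max (μ i) 0 * (c i j) ^ 2) = ∑ i, max (μ i) 0 * c i j * c i j :=
      Finset.sum_congr rfl fun i _ => by ring
    rw [e1] at h3
    refine (h3.trans h4).trans (le_of_eq ?_)
    exact Finset.sum_congr rfl fun i _ => by ring
  calc ∑ j, (max (a j) 0) ^ 2 ≤ ∑ j, ∑ i, (max (μ i) 0) ^ 2 * (c i j) ^ 2 :=
        Finset.sum_le_sum fun j _ => hj j
    _ = ∑ i, (max (μ i) 0) ^ 2 * ∑ j, (c i j) ^ 2 := by
        rw [Finset.sum_comm]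
        exact Finset.sum_congr rfl fun i _ => by rw [Finset.mul_sum]
    _ ≤ ∑ i, (max (μ i) 0) ^ 2 := Finset.sum_le_sum fun i _ => by
        have := mul_le_mul_of_nonneg_left (hsum2 i) (sq_nonneg (max (μ i) 0))
        linarith

theorem sq_parts (x : ℝ) : (max x 0) ^ 2 + (max (-x) 0) ^ 2 = x ^ 2 := by
  rcases le_total x 0 with h | h
  · rw [max_eq_right h, max_eq_left (by linarith)]
    ring
  · rw [max_eq_left h, max_eq_right (by linarith)]
    ring

/-- Two-sided comparison with the Hilbert-Schmidt norm. -/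
theorem cf2 {ι κ : Type} [Fintype ι] [DecidableEq ι] [Fintype κ]
    (T : EuclideanSpace ℝ ι →ₗ[ℝ] EuclideanSpace ℝ ι)
    (hT : ∀ x y, inner ℝ (T x) y = inner ℝ x (T y))
    (u : κ → EuclideanSpace ℝ ι) (hu : LinearIndependent ℝ u) (a : κ → ℝ)
    (ha : ∀ j, ∀ v ∈ Submodule.span ℝ (u '' {i | a j ≤ a i}),
      a j * ‖v‖ ^ 2 ≤ inner ℝ (T v) v)
    (w : κ → EuclideanSpace ℝ ι) (hw : LinearIndependent ℝ w) (a' : κ → ℝ)
    (ha' : ∀ j, ∀ v ∈ Submodule.span ℝ (w '' {i | a' j ≤ a' i}),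
      a' j * ‖v‖ ^ 2 ≤ -inner ℝ (T v) v) :
    ∑ j, (max (a j) 0) ^ 2 + ∑ j, (max (a' j) 0) ^ 2
      ≤ ∑ i, ‖T (EuclideanSpace.single i 1)‖ ^ 2 := by
  classical
  have hsym : T.IsSymmetric := fun x y => hT x y
  set b := hsym.eigenvectorBasis rfl with hbdef
  set μ := hsym.eigenvalues rfl with hμ
  have hb : ∀ i, T (b i) = μ i • b i := fun i => hsym.apply_eigenvectorBasis rfl i
  have h1 := cf T hT b μ hb u hu a ha
  have h2 := cf (-T) (fun x y => by
      simp only [LinearMap.neg_apply, inner_neg_left, inner_neg_right, hT x y])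
    b (fun i => -μ i) (fun i => by
      rw [LinearMap.neg_apply, hb i, neg_smul]) w hw a' (fun j v hv => by
      simp only [LinearMap.neg_apply, inner_neg_left]
      exact ha' j v hv)
  have h3 : ∑ i, (μ i) ^ 2 = ∑ i, ‖T (EuclideanSpace.single i 1)‖ ^ 2 := by
    have e1 : ∀ i, (μ i) ^ 2 = ‖T (b i)‖ ^ 2 := by
      intro i
      rw [hb i, norm_smul, b.orthonormal.1 i, mul_one, Real.norm_eq_abs, sq_abs]
    have e2 : ∀ i, ‖T (b i)‖ ^ 2
        = ∑ j, (inner ℝ (T (EuclideanSpace.single j 1)) (b i) : ℝ) ^ 2 := by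
      intro i
      have := (EuclideanSpace.basisFun ι ℝ).sum_sq_norm_inner_right (T (b i))
      rw [← this]
      refine Finset.sum_congr rfl fun j _ => ?_
      rw [EuclideanSpace.basisFun_apply, hT, Real.norm_eq_abs, sq_abs]
    have e3 : ∀ j, ‖T (EuclideanSpace.single j (1 : ℝ))‖ ^ 2
        = ∑ i, (inner ℝ (T (EuclideanSpace.single j 1)) (b i) : ℝ) ^ 2 := by
      intro j
      have := b.sum_sq_norm_inner_left (T (EuclideanSpace.single j (1 : ℝ)))
      rw [← this]
      refine Finset.sum_congr rfl fun i _ => ?_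
      rw [Real.norm_eq_abs, sq_abs]
    rw [Finset.sum_congr rfl fun i _ => (e1 i).trans (e2 i), Finset.sum_comm]
    exact Finset.sum_congr rfl fun j _ => (e3 j).symm
  rw [← h3]
  have h4 : ∑ i, (μ i) ^ 2 = ∑ i, (max (μ i) 0) ^ 2 + ∑ i, (max (-μ i) 0) ^ 2 := by
    rw [← Finset.sum_add_distrib]
    exact Finset.sum_congr rfl fun i _ => (sq_parts _).symm
  rw [h4]
  exact add_le_add h1 h2

end Pool.Agent.H626.CF
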