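import Mathlib

set_option autoImplicit false
set_option linter.unusedSectionVars false

namespace Pool.Agent.H626.Flow

open Finset

variable {Ω : Type*} [Fintype Ω] [DecidableEq Ω] [PartialOrder Ω]

/-- Layer-cake for nonnegative nondecreasing functions. -/
theorem layer_pos (d : Ω → ℝ)
    (hd : ∀ U : Finset Ω, (∀ A ∈ U, ∀ B, A ≤ B → B ∈ U) → 0 ≤ ∑ A ∈ U, d A) (N : ℕ) :
    ∀ θ : Ω → ℝ, (univ.filter (fun A => 0 < θ A)).card = N → (∀ A, 0 ≤ θ A) →
      (∀ A B, A ≤ B → θ A ≤ θ B) → 0 ≤ ∑ A, θ A * d A := by
  induction N using Nat.strong_induction_on with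
  | _ N ih =>
    intro θ hN h0 hm
    by_cases hemp : (univ.filter (fun A => 0 < θ A)).Nonempty
    · obtain ⟨A0, hA0, hmin⟩ := Finset.exists_min_image _ θ hemp
      have hc : 0 < θ A0 := (Finset.mem_filter.mp hA0).2
      set U := univ.filter (fun A => 0 < θ A) with hU
      set θ' : Ω → ℝ := fun A => θ A - (if A ∈ U then θ A0 else 0) with hθ'
      have hup : ∀ A ∈ U, ∀ B, A ≤ B → B ∈ U := by
        intro A hA B hAB
        rw [hU, Finset.mem_filter] at hA ⊢
        exact ⟨Finset.mem_univ _, lt_of_lt_of_le hA.2 (hm A B hAB)⟩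
      have hnot : ∀ A, A ∉ U → θ A = 0 := by
        intro A hA
        rw [hU, Finset.mem_filter] at hA
        push Not at hA
        exact le_antisymm (hA (Finset.mem_univ _)) (h0 A)
      have h0' : ∀ A, 0 ≤ θ' A := by
        intro A
        by_cases hA : A ∈ U
        · simp only [hθ', if_pos hA]
          linarith [hmin A hA]
        · simp only [hθ', if_neg hA, hnot A hA]
          simp
      have hm' : ∀ A B, A ≤ B → θ' A ≤ θ' B := by
        intro A B hAB
        by_cases hA : A ∈ U
        · have hB := hup A hA B hAB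
          simp only [hθ', if_pos hA, if_pos hB]
          linarith [hm A B hAB]
        · have : θ' A = 0 := by
            simp only [hθ', if_neg hA, hnot A hA]
            simp
          rw [this]
          exact h0' B
      have hcard : (univ.filter (fun A => 0 < θ' A)).card < N := by
        rw [← hN]
        apply Finset.card_lt_card
        rw [Finset.ssubset_iff_of_subset]
        · refine ⟨A0, hA0, ?_⟩
          intro h
          have := (Finset.mem_filter.mp h).2
          simp only [hθ', if_pos hA0] at this
          linarith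
        · intro A hA
          by_contra hn
          have h1 := (Finset.mem_filter.mp hA).2
          simp only [hθ', if_neg hn, hnot A hn] at h1
          simp at h1
      have h1 := ih _ hcard θ' rfl h0' hm'
      have h2 := mul_nonneg hc.le (hd U hup)
      have h3 : ∑ A, θ A * d A = ∑ A, θ' A * d A + θ A0 * ∑ A ∈ U, d A := by
        have e1 : θ A0 * ∑ A ∈ U, d A = ∑ A, (if A ∈ U then θ A0 else 0) * d A := by
          rw [Finset.mul_sum]
          simp only [ite_mul, zero_mul, Finset.sum_ite_mem, Finset.univ_inter]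
        rw [e1, ← Finset.sum_add_distrib]
        refine Finset.sum_congr rfl fun A _ => ?_
        simp only [hθ']
        ring
      rw [h3]
      linarith
    · have hz : ∀ A, θ A = 0 := by
        intro A
        by_contra hne
        exact hemp ⟨A, Finset.mem_filter.mpr ⟨Finset.mem_univ _,
          lt_of_le_of_ne (h0 A) (Ne.symm hne)⟩⟩
      simp [hz]

/-- The dual form of the cut condition. -/
theorem cut_dual (g h : Ω → ℝ) (htot : ∑ A, g A = ∑ A, h A)
    (hcut : ∀ I : Finset Ω, (∀ A ∈ I, ∀ B, B ≤ A → B ∈ I) → ∑ A ∈ I, h A ≤ ∑ A ∈ I, g A)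
    (θ : Ω → ℝ) (hθ : ∀ A B, A ≤ B → θ A ≤ θ B) :
    ∑ A, θ A * g A ≤ ∑ A, θ A * h A := by
  rcases isEmpty_or_nonempty Ω with he | hne
  · simp
  · obtain ⟨A0, _, hmin⟩ := Finset.exists_min_image (univ : Finset Ω) θ
      ⟨Classical.choice hne, Finset.mem_univ _⟩
    have h1 := layer_pos (fun A => h A - g A) (by
      intro U hU
      have h2 := hcut Uᶜ (by
        intro A hA B hBA
        rw [Finset.mem_compl] at hA ⊢
        exact fun hB => hA (hU B hB A hBA))
      have h3 := Finset.sum_add_sum_compl U g
      have h4 := Finset.sum_add_sum_compl U h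
      rw [Finset.sum_sub_distrib]
      linarith) _ (fun A => θ A - θ A0) rfl
      (fun A => by
        have := hmin A (Finset.mem_univ _)
        linarith)
      (fun A B hAB => by
        have := hθ A B hAB
        linarith)
    have h5 : ∑ A, (θ A - θ A0) * (h A - g A)
        = (∑ A, θ A * h A - ∑ A, θ A * g A) - θ A0 * (∑ A, h A - ∑ A, g A) := by
      rw [← Finset.sum_sub_distrib, ← Finset.sum_sub_distrib, Finset.mul_sum,
        ← Finset.sum_sub_distrib]
      exact Finset.sum_congr rfl fun A _ => by ring
    rw [h5, htot, sub_self, mul_zero, sub_zero] at h1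
    linarith

/-- Max-flow min-cut for a finite partially ordered set. -/
theorem flow (g h : Ω → ℝ) (hg : ∀ A, 0 ≤ g A) (hh : ∀ A, 0 ≤ h A)
    (htot : ∑ A, g A = ∑ A, h A)
    (hcut : ∀ I : Finset Ω, (∀ A ∈ I, ∀ B, B ≤ A → B ∈ I) → ∑ A ∈ I, h A ≤ ∑ A ∈ I, g A) :
    ∃ v : Ω → Ω → ℝ, (∀ A B, 0 ≤ v A B) ∧ (∀ A B, ¬ A ≤ B → v A B = 0) ∧
      (∀ A, ∑ B, v A B = g A) ∧ (∀ B, ∑ A, v A B = h B) := by
  classical
  set M : ℝ := ∑ A, g A with hM
  have hM0 : 0 ≤ M := Finset.sum_nonneg fun A _ => hg A
  rcases hM0.eq_or_lt with hz | hpos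
  · have hg0 : ∀ A, g A = 0 := by
      intro A
      exact (Finset.sum_eq_zero_iff_of_nonneg fun A _ => hg A).mp hz.symm A (Finset.mem_univ _)
    have hh0 : ∀ A, h A = 0 := by
      intro A
      exact (Finset.sum_eq_zero_iff_of_nonneg fun A _ => hh A).mp
        (htot.symm.trans hz.symm) A (Finset.mem_univ _)
    exact ⟨fun _ _ => 0, fun _ _ => le_rfl, fun _ _ _ => rfl,
      fun A => by simp [hg0], fun B => by simp [hh0]⟩
  · let P : Finset (Ω × Ω) := univ.filter (fun p => p.1 ≤ p.2)
    let x : Ω × Ω → (Ω → ℝ) × (Ω → ℝ) := fun p => (Pi.single p.1 M, Pi.single p.2 M)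
    have hmem : (g, h) ∈ convexHull ℝ ((P.image x : Finset ((Ω → ℝ) × (Ω → ℝ))) : Set ((Ω → ℝ) × (Ω → ℝ))) := by
      by_contra hcon
      have hclosed : IsClosed
          (convexHull ℝ ((P.image x : Finset ((Ω → ℝ) × (Ω → ℝ))) : Set ((Ω → ℝ) × (Ω → ℝ)))) := by
        apply Set.Finite.isClosed_convexHull
        exact Finset.finite_toSet _
      obtain ⟨F, u, hF1, hF2⟩ := geometric_hahn_banach_closed_point
        (convex_convexHull ℝ _) hclosed hcon
      set φ : Ω → ℝ := fun A => F (Pi.single A 1, 0) with hφ
      set ψ : Ω → ℝ := fun A => F (0, Pi.single A 1) with hψ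
      have hFgh : ∀ a b : Ω → ℝ, F (a, b) = ∑ A, φ A * a A + ∑ A, ψ A * b A := by
        intro a b
        have e1 : (a, b) = (a, (0 : Ω → ℝ)) + ((0 : Ω → ℝ), b) := by simp
        have e2 : (a, (0 : Ω → ℝ)) = ∑ A, a A • ((Pi.single A 1 : Ω → ℝ), (0 : Ω → ℝ)) := by
          ext1
          · rw [Prod.fst_sum]
            ext B
            simp [Finset.sum_apply, Pi.single_apply]
          · rw [Prod.snd_sum]
            simp
        have e3 : ((0 : Ω → ℝ), b) = ∑ A, b A • ((0 : Ω → ℝ), (Pi.single A 1 : Ω → ℝ)) := by
          ext1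
          · rw [Prod.fst_sum]
            simp
          · rw [Prod.snd_sum]
            ext B
            simp [Finset.sum_apply, Pi.single_apply]
        rw [e1, map_add, e2, e3, map_sum, map_sum]
        congr 1
        · exact Finset.sum_congr rfl fun A _ => by rw [map_smul, smul_eq_mul, mul_comm]
        · exact Finset.sum_congr rfl fun A _ => by rw [map_smul, smul_eq_mul, mul_comm]
      have hpair : ∀ A B, A ≤ B → M * (φ A + ψ B) < u := by
        intro A B hAB
        have h1 := hF1 (x (A, B)) (subset_convexHull ℝ _ (Finset.mem_coe.mpr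
          (Finset.mem_image.mpr ⟨(A, B), Finset.mem_filter.mpr ⟨Finset.mem_univ _, hAB⟩, rfl⟩)))
        simp only [x] at h1
        rw [hFgh] at h1
        have e1 : ∑ C, φ C * (Pi.single A M : Ω → ℝ) C = φ A * M := by
          rw [Finset.sum_eq_single A]
          · simp
          · intro C _ hC
            simp [hC]
          · simp
        have e2 : ∑ C, ψ C * (Pi.single B M : Ω → ℝ) C = ψ B * M := by
          rw [Finset.sum_eq_single B]
          · simp
          · intro C _ hC
            simp [hC]
          · simp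
        rw [e1, e2] at h1
        linarith
      set c : ℝ := u / M with hc
      have hcM : c * M = u := div_mul_cancel₀ u hpos.ne'
      have hpair' : ∀ A B, A ≤ B → φ A ≤ c - ψ B := by
        intro A B hAB
        have h1 := hpair A B hAB
        rw [← hcM] at h1
        have h2 : M * (φ A + ψ B) < M * c := by linarith
        have h3 := lt_of_mul_lt_mul_left h2 hpos.le
        linarith
      have hne : ∀ A : Ω, (univ.filter (fun B => A ≤ B)).Nonempty :=
        fun A => ⟨A, Finset.mem_filter.mpr ⟨Finset.mem_univ _, le_rfl⟩⟩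
      set θ : Ω → ℝ := fun A => (univ.filter (fun B => A ≤ B)).inf' (hne A) (fun B => c - ψ B)
        with hθ
      have hθm : ∀ A B, A ≤ B → θ A ≤ θ B := by
        intro A B hAB
        simp only [hθ]
        apply Finset.le_inf'
        intro C hC
        have hBC := (Finset.mem_filter.mp hC).2
        exact Finset.inf'_le (fun B => c - ψ B)
          (Finset.mem_filter.mpr ⟨Finset.mem_univ _, hAB.trans hBC⟩)
      have hφθ : ∀ A, φ A ≤ θ A := by
        intro A
        simp only [hθ]
        apply Finset.le_inf'
        intro C hC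
        exact hpair' A C (Finset.mem_filter.mp hC).2
      have hψθ : ∀ A, ψ A ≤ c - θ A := by
        intro A
        have : θ A ≤ c - ψ A := by
          simp only [hθ]
          exact Finset.inf'_le (fun B => c - ψ B)
            (Finset.mem_filter.mpr ⟨Finset.mem_univ _, le_rfl⟩)
        linarith
      have hcd := cut_dual g h htot hcut θ hθm
      rw [hFgh] at hF2
      have h1 : ∑ A, φ A * g A ≤ ∑ A, θ A * g A :=
        Finset.sum_le_sum fun A _ => mul_le_mul_of_nonneg_right (hφθ A) (hg A)
      have h2 : ∑ A, ψ A * h A ≤ ∑ A, (c - θ A) * h A :=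
        Finset.sum_le_sum fun A _ => mul_le_mul_of_nonneg_right (hψθ A) (hh A)
      have h3 : ∑ A, (c - θ A) * h A = c * M - ∑ A, θ A * h A := by
        rw [htot, Finset.mul_sum, ← Finset.sum_sub_distrib]
        exact Finset.sum_congr rfl fun A _ => by ring
      rw [h3, hcM] at h2
      linarith
    have hxinj : Function.Injective x := by
      rintro ⟨A, B⟩ ⟨C, D⟩ hx
      have h1 := congrArg Prod.fst hx
      have h2 := congrArg Prod.snd hx
      simp only [x] at h1 h2
      have hAC : A = C := by
        by_contra hne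
        have := congrFun h1 A
        rw [Pi.single_eq_same, Pi.single_eq_of_ne hne] at this
        exact hpos.ne' this
      have hBD : B = D := by
        by_contra hne
        have := congrFun h2 B
        rw [Pi.single_eq_same, Pi.single_eq_of_ne hne] at this
        exact hpos.ne' this
      rw [hAC, hBD]
    rw [Finset.mem_convexHull'] at hmem
    obtain ⟨w, hw0, _, hw2⟩ := hmem
    rw [Finset.sum_image (fun a _ b _ hab => hxinj hab)] at hw2
    have hexp : ∀ q : Ω × Ω → ℝ, ∑ p ∈ P, q p = ∑ A, ∑ B, if A ≤ B then q (A, B) else 0 := by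
      intro q
      rw [Finset.sum_filter, Fintype.sum_prod_type]
    set v : Ω → Ω → ℝ := fun A B => if A ≤ B then M * w (x (A, B)) else 0 with hv
    refine ⟨v, ?_, ?_, ?_, ?_⟩
    · intro A B
      by_cases hAB : A ≤ B
      · simp only [hv, if_pos hAB]
        exact mul_nonneg hpos.le (hw0 _ (Finset.mem_image.mpr
          ⟨(A, B), Finset.mem_filter.mpr ⟨Finset.mem_univ _, hAB⟩, rfl⟩))
      · simp only [hv, if_neg hAB]
        exact le_rfl
    · intro A B hAB
      simp only [hv, if_neg hAB]
    · intro A
      have h1 := congrFun (congrArg Prod.fst hw2) A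
      rw [Prod.fst_sum, Finset.sum_apply] at h1
      simp only [x, Prod.smul_mk, Pi.smul_apply, smul_eq_mul] at h1
      rw [hexp (fun p => w (x p) * (Pi.single p.1 M : Ω → ℝ) A)] at h1
      simp only at h1
      rw [Finset.sum_eq_single A] at h1
      · rw [← h1]
        refine Finset.sum_congr rfl fun B _ => ?_
        simp only [hv, Pi.single_eq_same]
        split_ifs
        · ring
        · rfl
      · intro C _ hC
        refine Finset.sum_eq_zero fun B _ => ?_
        rw [Pi.single_eq_of_ne hC.symm]
        simp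
      · simp
    · intro B
      have h1 := congrFun (congrArg Prod.snd hw2) B
      rw [Prod.snd_sum, Finset.sum_apply] at h1
      simp only [x, Prod.smul_mk, Pi.smul_apply, smul_eq_mul] at h1
      rw [hexp (fun p => w (x p) * (Pi.single p.2 M : Ω → ℝ) B)] at h1
      simp only at h1
      rw [← h1]
      refine Finset.sum_congr rfl fun A _ => ?_
      rw [Finset.sum_eq_single B]
      · simp only [hv, Pi.single_eq_same]
        split_ifs
        · ring
        · rfl
      · intro C _ hC
        rw [Pi.single_eq_of_ne hC.symm]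
        simp
      · simp

end Pool.Agent.H626.Flow
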