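import Pool.Agent.H626.Op
import Pool.Agent.H626.Flow

set_option autoImplicit false
set_option linter.unusedSectionVars false

namespace Pool.Agent.H626.Kahn

open Finset Pool.Agent.H626.Op

variable {n : ℕ}

/-- Splitting the squared coefficients according to the largest element. -/
noncomputable def wmax (q : Finset (Fin n) → ℝ) (S : Finset (Fin n)) (i : Fin n) : ℝ :=
  if S.max = (i : WithBot (Fin n)) then q S else 0

theorem wmax_nonneg (q : Finset (Fin n) → ℝ) (hq : ∀ S, 0 ≤ q S) (S : Finset (Fin n))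
    (i : Fin n) : 0 ≤ wmax q S i := by
  unfold wmax
  split_ifs
  · exact hq S
  · exact le_rfl

theorem wmax_notMem (q : Finset (Fin n) → ℝ) (S : Finset (Fin n)) (i : Fin n) (hi : i ∉ S) :
    wmax q S i = 0 := by
  unfold wmax
  rw [if_neg]
  intro h
  exact hi (Finset.mem_of_max h)

theorem wmax_sum (q : Finset (Fin n) → ℝ) (S : Finset (Fin n)) (hS : S.Nonempty) :
    ∑ i, wmax q S i = q S := by
  unfold wmax
  obtain ⟨a, ha⟩ := Finset.max_of_nonempty hS
  rw [Finset.sum_eq_single a]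
  · rw [if_pos ha]
  · intro b _ hb
    rw [if_neg]
    intro h
    rw [ha] at h
    exact hb (WithBot.coe_injective h).symm
  · simp

theorem sum_compl (F : Finset (Fin n) → ℝ) :
    ∑ A : Finset (Fin n), F Aᶜ = ∑ A : Finset (Fin n), F A :=
  Equiv.sum_comp (compl_involutive.toPerm (compl : Finset (Fin n) → Finset (Fin n))) F

theorem fh_empty (f : Finset (Fin n) → ℝ) (hanti : ∀ A, f Aᶜ = -f A) : fh f ∅ = 0 := by
  have h1 := sum_compl f
  rw [Finset.sum_congr rfl fun A _ => hanti A, Finset.sum_neg_distrib] at h1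
  have h2 : ∑ C, f C * chi ∅ C = ∑ C, f C :=
    Finset.sum_congr rfl fun C _ => by simp [chi]
  unfold fh
  rw [h2]
  have h3 : ∑ C, f C = 0 := by linarith
  rw [h3, zero_div]

theorem star_sum (D : Finset (Finset (Fin n))) (l : Fin n → ℝ) :
    ∑ A ∈ D, ∑ i ∈ A, l i = ∑ i, l i * ((D.filter (fun A => i ∈ A)).card : ℝ) := by
  have : ∀ A : Finset (Fin n), ∑ i ∈ A, l i = ∑ i, l i * (if i ∈ A then (1 : ℝ) else 0) := by
    intro A
    simp [Finset.sum_ite_mem]
  rw [Finset.sum_congr rfl (fun A _ => this A), Finset.sum_comm]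
  refine Finset.sum_congr rfl fun i _ => ?_
  rw [← Finset.mul_sum, Finset.sum_boole]

theorem cut (D : Finset (Finset (Fin n))) (hD : ∀ A ∈ D, ∀ B, B ⊆ A → B ∈ D)
    (f : Finset (Fin n) → ℝ) (hf : ∀ A B, A ⊆ B → f A ≤ f B) (hanti : ∀ A, f Aᶜ = -f A)
    (w : Finset (Fin n) → Fin n → ℝ) (hw0 : ∀ S i, 0 ≤ w S i)
    (hwS : ∀ S i, i ∉ S → w S i = 0) (hwsum : ∀ S, S.Nonempty → ∑ i, w S i = fh f S ^ 2) :
    ∑ A ∈ D, (max (f A) 0) ^ 2
      ≤ ∑ i, (∑ S, w S i) * ((D.filter (fun A => i ∈ A)).card : ℝ) := by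
  have h := main_split D hD f hf w hw0 hwS hwsum
  rw [fh_empty f hanti] at h
  have h2 : ∑ A ∈ D, (max (-f Aᶜ) 0) ^ 2 = ∑ A ∈ D, (max (f A) 0) ^ 2 :=
    Finset.sum_congr rfl fun A _ => by rw [hanti A, neg_neg]
  rw [h2] at h
  linarith

theorem lam_sum (f : Finset (Fin n) → ℝ) (hanti : ∀ A, f Aᶜ = -f A)
    (w : Finset (Fin n) → Fin n → ℝ)
    (hwS : ∀ S i, i ∉ S → w S i = 0) (hwsum : ∀ S, S.Nonempty → ∑ i, w S i = fh f S ^ 2) :
    ∑ i, ∑ S, w S i = 2 * (∑ A, (max (f A) 0) ^ 2) / 2 ^ n := by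
  rw [Finset.sum_comm]
  have h1 : ∀ S, ∑ i, w S i = fh f S ^ 2 := by
    intro S
    rcases S.eq_empty_or_nonempty with h | h
    · subst h
      rw [fh_empty f hanti]
      simp only [ne_eq, OfNat.ofNat_ne_zero, not_false_eq_true, zero_pow]
      exact Finset.sum_eq_zero fun i _ => hwS ∅ i (Finset.notMem_empty i)
    · exact hwsum S h
  rw [Finset.sum_congr rfl fun S _ => h1 S, parseval]
  congr 1
  have h2 : ∀ A, f A ^ 2 = (max (f A) 0) ^ 2 + (max (f Aᶜ) 0) ^ 2 := by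
    intro A
    rw [hanti A]
    exact (CF.sq_parts (f A)).symm
  rw [Finset.sum_congr rfl fun A _ => h2 A, Finset.sum_add_distrib,
    sum_compl (fun A => (max (f A) 0) ^ 2)]
  ring

theorem two_mul_star (i : Fin n) :
    2 * ((univ.filter (fun A : Finset (Fin n) => i ∈ A)).card : ℝ) = 2 ^ n := by
  have h1 := sum_compl (fun A : Finset (Fin n) => if i ∈ A then (1 : ℝ) else 0)
  have h2 : ∑ A : Finset (Fin n), ((if i ∈ Aᶜ then (1 : ℝ) else 0)
      + (if i ∈ A then (1 : ℝ) else 0)) = 2 ^ n := by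
    have : ∀ A : Finset (Fin n), ((if i ∈ Aᶜ then (1 : ℝ) else 0)
      + (if i ∈ A then (1 : ℝ) else 0)) = 1 := by
      intro A
      by_cases h : i ∈ A <;> simp [h]
    rw [Finset.sum_congr rfl fun A _ => this A]
    simp
  rw [Finset.sum_add_distrib, h1, Finset.sum_boole] at h2
  linarith

theorem total (f : Finset (Fin n) → ℝ) (hanti : ∀ A, f Aᶜ = -f A)
    (w : Finset (Fin n) → Fin n → ℝ)
    (hwS : ∀ S i, i ∉ S → w S i = 0) (hwsum : ∀ S, S.Nonempty → ∑ i, w S i = fh f S ^ 2) :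
    ∑ A : Finset (Fin n), ∑ i ∈ A, ∑ S, w S i = ∑ A, (max (f A) 0) ^ 2 := by
  rw [star_sum]
  have h1 : ∑ i, (∑ S, w S i) * ((univ.filter (fun A : Finset (Fin n) => i ∈ A)).card : ℝ)
      = (∑ i, ∑ S, w S i) * (2 ^ n / 2) := by
    rw [Finset.sum_mul]
    refine Finset.sum_congr rfl fun i _ => ?_
    rw [← two_mul_star i]
    ring
  rw [h1, lam_sum f hanti w hwS hwsum]
  field_simp

/-- Kahn's flow conjecture. -/
theorem flow (f : Finset (Fin n) → ℝ) (hf : ∀ A B, A ⊆ B → f A ≤ f B)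
    (hanti : ∀ A, f Aᶜ = -f A)
    (w : Finset (Fin n) → Fin n → ℝ) (hw0 : ∀ S i, 0 ≤ w S i)
    (hwS : ∀ S i, i ∉ S → w S i = 0) (hwsum : ∀ S, S.Nonempty → ∑ i, w S i = fh f S ^ 2) :
    ∃ v : Finset (Fin n) → Finset (Fin n) → ℝ, (∀ A B, 0 ≤ v A B) ∧
      (∀ A B, ¬ A ⊆ B → v A B = 0) ∧ (∀ A, ∑ B, v A B = ∑ i ∈ A, ∑ S, w S i) ∧
      (∀ B, ∑ A, v A B = (max (f B) 0) ^ 2) := by
  have := Flow.flow (Ω := Finset (Fin n)) (fun A => ∑ i ∈ A, ∑ S, w S i)
    (fun A => (max (f A) 0) ^ 2)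
    (fun A => Finset.sum_nonneg fun i _ => Finset.sum_nonneg fun S _ => hw0 S i)
    (fun A => sq_nonneg _) (total f hanti w hwS hwsum)
    (fun I hI => by
      rw [star_sum]
      exact cut I (fun A hA B hB => hI A hA B hB) f hf hanti w hw0 hwS hwsum)
  exact this

/-- The inequality for the three-valued function attached to an up-set `B`:
`B⁺` is the set of `x ∈ B` with `xᶜ ∉ B`. -/
theorem three_valued (B : Finset (Finset (Fin n))) (hB : ∀ s t, s ⊆ t → s ∈ B → t ∈ B) :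
    ∃ f : Finset (Fin n) → ℝ, (∀ s t, s ⊆ t → f s ≤ f t) ∧ (∀ s, f sᶜ = -f s) ∧
      (∀ s, (max (f s) 0) ^ 2 = if s ∈ B.filter (fun x => xᶜ ∉ B) then (1 : ℝ) else 0) ∧
      (∀ S, fh f S = if Odd S.card then 2 * ((∑ x ∈ B, ((-1 : ℝ) ^ (x ∩ S).card)) / 2 ^ n)
        else 0) := by
  classical
  refine ⟨fun s => (if s ∈ B then (1 : ℝ) else 0) - (if sᶜ ∈ B then (1 : ℝ) else 0),
    ?_, ?_, ?_, ?_⟩
  · intro s t hst
    have h1 : (if s ∈ B then (1 : ℝ) else 0) ≤ (if t ∈ B then (1 : ℝ) else 0) := by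
      by_cases h : s ∈ B
      · simp [h, hB s t hst h]
      · by_cases h' : t ∈ B <;> simp [h, h']
    have h2 : (if tᶜ ∈ B then (1 : ℝ) else 0) ≤ (if sᶜ ∈ B then (1 : ℝ) else 0) := by
      by_cases h : tᶜ ∈ B
      · simp [h, hB tᶜ sᶜ (Finset.compl_subset_compl.mpr hst) h]
      · by_cases h' : sᶜ ∈ B <;> simp [h, h']
    simp only
    linarith
  · intro s
    simp only [compl_compl]
    ring
  · intro s
    simp only [Finset.mem_filter]
    by_cases h : s ∈ B <;> by_cases h' : sᶜ ∈ B <;> simp [h, h']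
  · intro S
    have e1 : ∑ C, ((if C ∈ B then (1 : ℝ) else 0) - (if Cᶜ ∈ B then (1 : ℝ) else 0)) * chi S C
        = (1 - (-1) ^ S.card) * ∑ x ∈ B, ((-1 : ℝ) ^ (x ∩ S).card) := by
      have e2 : ∑ C, (if C ∈ B then (1 : ℝ) else 0) * chi S C
          = ∑ x ∈ B, ((-1 : ℝ) ^ (x ∩ S).card) := by
        simp only [ite_mul, one_mul, zero_mul, Finset.sum_ite_mem, Finset.univ_inter]
        exact Finset.sum_congr rfl fun x _ => by rw [chi_comm, chi_eq]
      have e3 : ∑ C, (if Cᶜ ∈ B then (1 : ℝ) else 0) * chi S C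
          = (-1) ^ S.card * ∑ x ∈ B, ((-1 : ℝ) ^ (x ∩ S).card) := by
        rw [← e2, ← sum_compl, Finset.mul_sum]
        refine Finset.sum_congr rfl fun C _ => ?_
        rw [compl_compl]
        have : chi S Cᶜ = (-1) ^ S.card * chi S C := by
          unfold chi
          rw [← Finset.prod_const, ← Finset.prod_mul_distrib]
          refine Finset.prod_congr rfl fun j _ => ?_
          unfold sg
          by_cases h : j ∈ C <;> simp [h]
        rw [this]
        ring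
      have e4 : ∀ C : Finset (Fin n), ((if C ∈ B then (1 : ℝ) else 0)
          - (if Cᶜ ∈ B then (1 : ℝ) else 0)) * chi S C
          = (if C ∈ B then (1 : ℝ) else 0) * chi S C
            - (if Cᶜ ∈ B then (1 : ℝ) else 0) * chi S C := fun C => by ring
      rw [Finset.sum_congr rfl fun C _ => e4 C, Finset.sum_sub_distrib, e2, e3]
      ring
    unfold fh
    rw [e1]
    split_ifs with hodd
    · rw [hodd.neg_one_pow]
      ring
    · rw [Nat.not_odd_iff_even] at hodd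
      rw [hodd.neg_one_pow]
      ring

end Pool.Agent.H626.Kahn
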