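import Pool.Agent.H626.CF

set_option autoImplicit false
set_option linter.unusedSectionVars false

namespace Pool.Agent.H626.Op

open Finset Module

variable {n : ℕ}

/-- sign of coordinate `i` at the point `C`. -/
noncomputable def sg (C : Finset (Fin n)) (i : Fin n) : ℝ := if i ∈ C then -1 else 1

/-- characters of the cube. -/
noncomputable def chi (A C : Finset (Fin n)) : ℝ := ∏ i ∈ A, sg C i

theorem chi_eq (A C : Finset (Fin n)) : chi A C = (-1) ^ ((A ∩ C).card) := by
  unfold chi sg
  rw [Finset.prod_ite]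
  simp [Finset.filter_mem_eq_inter]

theorem chi_comm (A C : Finset (Fin n)) : chi A C = chi C A := by
  rw [chi_eq, chi_eq, inter_comm]

theorem chi_univ (A C : Finset (Fin n)) : chi A C = ∏ i, (if i ∈ A then sg C i else 1) := by
  unfold chi
  rw [Finset.prod_ite_mem, univ_inter]

theorem sg_mul_self (C : Finset (Fin n)) (i : Fin n) : sg C i * sg C i = 1 := by
  unfold sg; split_ifs <;> norm_num

theorem chi_symmDiff (A B C : Finset (Fin n)) : chi (symmDiff A B) C = chi A C * chi B C := by
  rw [chi_univ, chi_univ, chi_univ, ← Finset.prod_mul_distrib]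
  refine Finset.prod_congr rfl fun i _ => ?_
  have h := sg_mul_self C i
  by_cases hA : i ∈ A <;> by_cases hB : i ∈ B <;> simp [Finset.mem_symmDiff, hA, hB, h]

theorem sum_chi (A : Finset (Fin n)) : ∑ C, chi A C = if A = ∅ then (2 : ℝ) ^ n else 0 := by
  have h1 : ∑ C, chi A C = ∏ i : Fin n, (1 + sg A i) := by
    rw [Finset.prod_one_add, Finset.powerset_univ]
    exact Finset.sum_congr rfl fun C _ => by rw [chi_comm]; rfl
  rw [h1]
  split_ifs with h
  · subst h
    have : ∀ i : Fin n, (1 + sg ∅ i : ℝ) = 2 := fun i => by unfold sg; simp; norm_num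
    simp [this]
  · obtain ⟨i, hi⟩ := Finset.nonempty_iff_ne_empty.mpr h
    exact Finset.prod_eq_zero (Finset.mem_univ i) (by unfold sg; simp [hi])

theorem sum_chi_mul (A B : Finset (Fin n)) :
    ∑ C, chi A C * chi B C = if A = B then (2 : ℝ) ^ n else 0 := by
  have : ∀ C, chi A C * chi B C = chi (symmDiff A B) C := fun C => (chi_symmDiff A B C).symm
  simp only [this, sum_chi]
  by_cases h : A = B
  · subst h; simp
  · have : symmDiff A B ≠ ∅ := by
      intro h2
      exact h (symmDiff_eq_bot.mp h2)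
    simp [h, this]

/-- Fourier coefficients. -/
noncomputable def fh (f : Finset (Fin n) → ℝ) (S : Finset (Fin n)) : ℝ :=
  (∑ C, f C * chi S C) / 2 ^ n

theorem parseval (f : Finset (Fin n) → ℝ) : ∑ S, fh f S ^ 2 = (∑ C, f C ^ 2) / 2 ^ n := by
  have h2 : (2 : ℝ) ^ n ≠ 0 := by positivity
  have h1 : ∀ S, fh f S ^ 2
      = (∑ C, ∑ C', f C * f C' * (chi S C * chi S C')) / (2 ^ n * 2 ^ n) := by
    intro S
    unfold fh
    rw [div_pow, sq, sq, Finset.sum_mul_sum]
    congr 1
    refine Finset.sum_congr rfl fun C _ => Finset.sum_congr rfl fun C' _ => ?_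
    ring
  simp only [h1]
  rw [← Finset.sum_div, Finset.sum_comm]
  have h3 : ∀ C, ∑ S, ∑ C', f C * f C' * (chi S C * chi S C') = f C ^ 2 * 2 ^ n := by
    intro C
    rw [Finset.sum_comm]
    have h4 : ∀ C', ∑ S, f C * f C' * (chi S C * chi S C') =
        if C = C' then f C * f C' * (2 : ℝ) ^ n else 0 := by
      intro C'
      rw [← Finset.mul_sum]
      have h5 : ∑ S, chi S C * chi S C' = if C = C' then (2 : ℝ) ^ n else 0 := by
        rw [← sum_chi_mul]
        exact Finset.sum_congr rfl fun S _ => by rw [chi_comm S C, chi_comm S C']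
      rw [h5]
      split_ifs with h
      · rfl
      · simp
    simp only [h4]
    simp
    ring
  simp only [h3]
  rw [← Finset.sum_mul]
  field_simp

/-- the matrix of multiplication by `f`, restricted to the characters in `D`. -/
noncomputable def TT (D : Finset (Finset (Fin n))) (f : Finset (Fin n) → ℝ) :
    EuclideanSpace ℝ {A // A ∈ D} →ₗ[ℝ] EuclideanSpace ℝ {A // A ∈ D} where
  toFun v := WithLp.toLp 2 (fun A => ∑ B : {A // A ∈ D}, fh f (symmDiff A.1 B.1) * v B)
  map_add' v w := by
    ext A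
    simp [mul_add, Finset.sum_add_distrib]
  map_smul' c v := by
    ext A
    simp only [PiLp.smul_apply, smul_eq_mul, RingHom.id_apply, Finset.mul_sum]
    exact Finset.sum_congr rfl fun B _ => by ring

theorem TT_apply (D : Finset (Finset (Fin n))) (f : Finset (Fin n) → ℝ)
    (v : EuclideanSpace ℝ {A // A ∈ D}) (A : {A // A ∈ D}) :
    TT D f v A = ∑ B : {A // A ∈ D}, fh f (symmDiff A.1 B.1) * v B := rfl

theorem TT_symm (D : Finset (Finset (Fin n))) (f : Finset (Fin n) → ℝ)
    (x y : EuclideanSpace ℝ {A // A ∈ D}) :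
    inner ℝ (TT D f x) y = inner ℝ x (TT D f y) := by
  rw [PiLp.inner_apply, PiLp.inner_apply]
  simp only [TT_apply, RCLike.inner_apply, conj_trivial]
  simp only [Finset.mul_sum, Finset.sum_mul]
  rw [Finset.sum_comm]
  refine Finset.sum_congr rfl fun A _ => Finset.sum_congr rfl fun B _ => ?_
  rw [symmDiff_comm B.1 A.1]; ring

theorem TT_norm (D : Finset (Finset (Fin n))) (f : Finset (Fin n) → ℝ) :
    ∑ i, ‖TT D f (EuclideanSpace.single i 1)‖ ^ 2 = ∑ A ∈ D, ∑ B ∈ D, fh f (symmDiff A B) ^ 2 := by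
  rw [← Finset.sum_coe_sort D]
  refine Finset.sum_congr rfl fun A _ => ?_
  rw [EuclideanSpace.norm_sq_eq, ← Finset.sum_coe_sort D]
  refine Finset.sum_congr rfl fun B _ => ?_
  rw [TT_apply]
  rw [Real.norm_eq_abs, sq_abs]
  congr 1
  rw [Finset.sum_eq_single A]
  · rw [symmDiff_comm]; simp
  · intro C _ hC; simp [hC]
  · simp

/-- polynomial of a vector. -/
noncomputable def PP (D : Finset (Finset (Fin n))) (v : EuclideanSpace ℝ {A // A ∈ D})
    (C : Finset (Fin n)) : ℝ := ∑ B : {A // A ∈ D}, v B * chi B.1 C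

theorem inner_TT (D : Finset (Finset (Fin n))) (f : Finset (Fin n) → ℝ)
    (v : EuclideanSpace ℝ {A // A ∈ D}) :
    inner ℝ (TT D f v) v = (∑ C, f C * PP D v C ^ 2) / 2 ^ n := by
  rw [PiLp.inner_apply]
  simp only [TT_apply, RCLike.inner_apply, conj_trivial]
  have e1 : ∀ C, f C * PP D v C ^ 2 = ∑ A : {A // A ∈ D}, ∑ B : {A // A ∈ D},
      v A * v B * (f C * chi (symmDiff A.1 B.1) C) := by
    intro C
    unfold PP
    rw [sq, Finset.sum_mul_sum, Finset.mul_sum]
    refine Finset.sum_congr rfl fun A _ => ?_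
    rw [Finset.mul_sum]
    refine Finset.sum_congr rfl fun B _ => ?_
    rw [chi_symmDiff]; ring
  rw [Finset.sum_congr rfl fun C _ => e1 C, Finset.sum_comm, Finset.sum_div]
  refine Finset.sum_congr rfl fun A _ => ?_
  rw [Finset.sum_comm, Finset.sum_div, Finset.mul_sum]
  refine Finset.sum_congr rfl fun B _ => ?_
  rw [← Finset.mul_sum]
  unfold fh
  ring

theorem norm_PP (D : Finset (Finset (Fin n))) (v : EuclideanSpace ℝ {A // A ∈ D}) :
    ‖v‖ ^ 2 = (∑ C, PP D v C ^ 2) / 2 ^ n := by
  have h1 := inner_TT D (fun _ => 1) v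
  have h2 : TT D (fun _ => 1) v = v := by
    ext A
    rw [TT_apply, Finset.sum_eq_single A]
    · unfold fh
      simp only [one_mul, symmDiff_self, sum_chi]
      simp
    · intro B _ hB
      have hne : symmDiff A.1 B.1 ≠ ∅ := by
        intro h
        exact hB (Subtype.ext (symmDiff_eq_bot.mp h)).symm
      unfold fh
      simp only [one_mul, sum_chi, if_neg hne]
      simp
    · simp
  rw [h2, real_inner_self_eq_norm_sq] at h1
  rw [h1]
  simp

/-- triangular vectors. -/
noncomputable def ww (D : Finset (Finset (Fin n))) (φ : Finset (Fin n) → ℝ) (A : Finset (Fin n)) :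
    EuclideanSpace ℝ {A // A ∈ D} := WithLp.toLp 2 (fun B => if B.1 ⊆ A then φ B.1 else 0)

theorem ww_apply (D : Finset (Finset (Fin n))) (φ : Finset (Fin n) → ℝ) (A : Finset (Fin n))
    (B : {A // A ∈ D}) : ww D φ A B = if B.1 ⊆ A then φ B.1 else 0 := rfl

theorem PP_ww (D : Finset (Finset (Fin n))) (hD : ∀ A ∈ D, ∀ B, B ⊆ A → B ∈ D)
    (φ : Finset (Fin n) → ℝ) (A : Finset (Fin n)) (hA : A ∈ D) (C : Finset (Fin n)) :
    PP D (ww D φ A) C = ∑ B ∈ A.powerset, φ B * chi B C := by
  unfold PP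
  simp only [ww_apply]
  rw [Finset.sum_coe_sort D (fun B => (if B ⊆ A then φ B else 0) * chi B C)]
  simp only [ite_mul, zero_mul]
  rw [← Finset.sum_filter]
  refine Finset.sum_congr ?_ fun _ _ => rfl
  ext B
  rw [Finset.mem_filter, Finset.mem_powerset]
  exact ⟨fun h => h.2, fun h => ⟨hD A hA B h, h⟩⟩

theorem ww_indep (D : Finset (Finset (Fin n))) (φ : Finset (Fin n) → ℝ)
    (hφ : ∀ B, φ B ≠ 0) :
    LinearIndependent ℝ (fun A : {A // A ∈ D} => ww D φ A.1) := by
  classical
  rw [Fintype.linearIndependent_iff]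
  intro g hg
  by_contra hcon
  push Not at hcon
  obtain ⟨A0, hA0⟩ := hcon
  obtain ⟨A, hA, hmax⟩ := Finset.exists_max_image
    (Finset.univ.filter (fun A : {A // A ∈ D} => g A ≠ 0)) (fun A => A.1.card)
    ⟨A0, by simp [hA0]⟩
  have hgA : g A ≠ 0 := (Finset.mem_filter.mp hA).2
  have h1 := congrArg (fun v : EuclideanSpace ℝ {A // A ∈ D} => v ⟨A.1, A.2⟩) hg
  have h2 : ∑ B : {A // A ∈ D}, g B * (if A.1 ⊆ B.1 then φ A.1 else 0) = 0 := by
    have : (∑ B : {A // A ∈ D}, g B • ww D φ B.1) ⟨A.1, A.2⟩ =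
        ∑ B : {A // A ∈ D}, g B * (if A.1 ⊆ B.1 then φ A.1 else 0) := by
      rw [WithLp.ofLp_sum, Finset.sum_apply]
      exact Finset.sum_congr rfl fun B _ => by simp [ww_apply]
    rw [← this]
    exact h1
  rw [Finset.sum_eq_single A] at h2
  · simp at h2
    rcases h2 with h | h
    · exact hgA h
    · exact hφ _ h
  · intro B _ hB
    by_cases hs : A.1 ⊆ B.1
    · by_cases hgB : g B = 0
      · simp [hgB]
      · exfalso
        have h3 := hmax B (by simp [hgB])
        have h4 : A.1 = B.1 := Finset.eq_of_subset_of_card_le hs h3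
        exact hB (Subtype.ext h4.symm)
    · simp [hs]
  · simp

theorem PP_add (D : Finset (Finset (Fin n))) (v w : EuclideanSpace ℝ {A // A ∈ D})
    (C : Finset (Fin n)) : PP D (v + w) C = PP D v C + PP D w C := by
  unfold PP
  rw [← Finset.sum_add_distrib]
  refine Finset.sum_congr rfl fun B _ => ?_
  rw [PiLp.add_apply]; ring

theorem PP_smul (D : Finset (Finset (Fin n))) (c : ℝ) (v : EuclideanSpace ℝ {A // A ∈ D})
    (C : Finset (Fin n)) : PP D (c • v) C = c * PP D v C := by
  unfold PP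
  rw [Finset.mul_sum]
  refine Finset.sum_congr rfl fun B _ => ?_
  rw [PiLp.smul_apply, smul_eq_mul]; ring

theorem PP_zero (D : Finset (Finset (Fin n))) (C : Finset (Fin n)) :
    PP D (0 : EuclideanSpace ℝ {A // A ∈ D}) C = 0 := by
  unfold PP
  simp

/-- The main inequality: for nondecreasing `f` and a down-set `D`. -/
theorem main (D : Finset (Finset (Fin n))) (hD : ∀ A ∈ D, ∀ B, B ⊆ A → B ∈ D)
    (f : Finset (Fin n) → ℝ) (hf : ∀ A B, A ⊆ B → f A ≤ f B) :
    ∑ A ∈ D, (max (f A) 0) ^ 2 + ∑ A ∈ D, (max (-f Aᶜ) 0) ^ 2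
      ≤ ∑ A ∈ D, ∑ B ∈ D, fh f (symmDiff A B) ^ 2 := by
  classical
  have hN : (0 : ℝ) < 2 ^ n := by positivity
  have h := CF.cf2 (TT D f) (TT_symm D f)
    (fun A : {A // A ∈ D} => ww D (fun B => (-1 : ℝ) ^ B.card) A.1)
    (ww_indep D _ (fun B => by positivity)) (fun A => f A.1) ?_
    (fun A : {A // A ∈ D} => ww D (fun _ => (1 : ℝ)) A.1)
    (ww_indep D _ (fun B => one_ne_zero)) (fun A => -f (A.1)ᶜ) ?_
  · rw [TT_norm] at h
    rw [← Finset.sum_coe_sort D, ← Finset.sum_coe_sort D]
    exact h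
  · intro A v hv
    have hsupp : ∀ C, f C < f A.1 → PP D v C = 0 := by
      induction hv using Submodule.span_induction with
      | mem v hv =>
        obtain ⟨B, hB, rfl⟩ := hv
        intro C hC
        rw [PP_ww D hD _ _ B.2]
        have e : ∑ A' ∈ B.1.powerset, (-1 : ℝ) ^ A'.card * chi A' C = ∏ i ∈ B.1, (1 + -sg C i) := by
          rw [Finset.prod_one_add]
          refine Finset.sum_congr rfl fun B _ => ?_
          rw [Finset.prod_neg]; rfl
        rw [e]
        have hBC : ¬ B.1 ⊆ C := by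
          intro hBC
          have h1 := hf _ _ hBC
          have h2 : f A.1 ≤ f B.1 := hB
          linarith
        obtain ⟨i, hi, hiC⟩ := Finset.not_subset.mp hBC
        exact Finset.prod_eq_zero hi (by simp [sg, hiC])
      | zero => intro C _; exact PP_zero D C
      | add x y _ _ hx hy => intro C hC; rw [PP_add, hx C hC, hy C hC, add_zero]
      | smul a x _ hx => intro C hC; rw [PP_smul, hx C hC, mul_zero]
    rw [inner_TT, norm_PP, ← mul_div_assoc, Finset.mul_sum]
    apply div_le_div_of_nonneg_right _ hN.le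
    refine Finset.sum_le_sum fun C _ => ?_
    by_cases hC : f C < f A.1
    · rw [hsupp C hC]
      simp
    · exact mul_le_mul_of_nonneg_right (not_lt.mp hC) (sq_nonneg _)
  · intro A v hv
    have hsupp : ∀ C, f (A.1)ᶜ < f C → PP D v C = 0 := by
      induction hv using Submodule.span_induction with
      | mem v hv =>
        obtain ⟨B, hB, rfl⟩ := hv
        intro C hC
        rw [PP_ww D hD _ _ B.2]
        have e : ∑ B' ∈ B.1.powerset, (1 : ℝ) * chi B' C = ∏ i ∈ B.1, (1 + sg C i) := by
          rw [Finset.prod_one_add]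
          exact Finset.sum_congr rfl fun B _ => by rw [one_mul]; rfl
        rw [e]
        have hBC : ¬ B.1 ⊆ Cᶜ := by
          intro hBC
          have h0 : C ⊆ (B.1)ᶜ := by
            intro i hi
            rw [Finset.mem_compl]
            intro hiB
            exact (Finset.mem_compl.mp (hBC hiB)) hi
          have h1 := hf _ _ h0
          have h2 : -f (A.1)ᶜ ≤ -f (B.1)ᶜ := hB
          linarith
        obtain ⟨i, hi, hiC⟩ := Finset.not_subset.mp hBC
        have hiC' : i ∈ C := by simpa using hiC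
        exact Finset.prod_eq_zero hi (by simp [sg, hiC'])
      | zero => intro C _; exact PP_zero D C
      | add x y _ _ hx hy => intro C hC; rw [PP_add, hx C hC, hy C hC, add_zero]
      | smul a x _ hx => intro C hC; rw [PP_smul, hx C hC, mul_zero]
    rw [inner_TT, norm_PP, ← mul_div_assoc, ← neg_div, Finset.mul_sum, ← Finset.sum_neg_distrib]
    apply div_le_div_of_nonneg_right _ hN.le
    refine Finset.sum_le_sum fun C _ => ?_
    by_cases hC : f (A.1)ᶜ < f C
    · rw [hsupp C hC]
      simp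
    · have := mul_le_mul_of_nonneg_right (neg_le_neg (not_lt.mp hC)) (sq_nonneg (PP D v C))
      linarith

/-- Counting: the double sum over `D` of a function of the symmetric difference. -/
theorem double_sum (D : Finset (Finset (Fin n))) (q : Finset (Fin n) → ℝ) :
    ∑ A ∈ D, ∑ B ∈ D, q (symmDiff A B)
      = ∑ S, q S * ((D.filter (fun A => symmDiff A S ∈ D)).card : ℝ) := by
  have h1 : ∀ A, ∑ B ∈ D, q (symmDiff A B) =
      ∑ S, if symmDiff A S ∈ D then q S else 0 := by
    intro A
    rw [← Finset.sum_filter]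
    refine Finset.sum_bij' (fun B _ => symmDiff A B) (fun S _ => symmDiff A S) ?_ ?_ ?_ ?_ ?_
    · intro B hB; simp [hB]
    · intro S hS; simpa using hS
    · intro B _; simp
    · intro S _; simp
    · intro B _; rfl
  simp only [h1]
  rw [Finset.sum_comm]
  refine Finset.sum_congr rfl fun S _ => ?_
  rw [← Finset.sum_filter, Finset.sum_const, nsmul_eq_mul, mul_comm]

theorem count_le (D : Finset (Finset (Fin n))) (S : Finset (Fin n)) (i : Fin n) (hi : i ∈ S) :
    ((D.filter (fun A => symmDiff A S ∈ D)).card : ℝ)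
      ≤ 2 * ((D.filter (fun A => i ∈ A)).card : ℝ) := by
  have h4 : D.filter (fun A => symmDiff A S ∈ D) ⊆
      D.filter (fun A => i ∈ A) ∪ (D.filter (fun A => i ∈ A)).image (fun A => symmDiff A S) := by
    intro A hA
    rw [Finset.mem_filter] at hA
    rw [Finset.mem_union]
    by_cases hiA : i ∈ A
    · left; rw [Finset.mem_filter]; exact ⟨hA.1, hiA⟩
    · right
      rw [Finset.mem_image]
      refine ⟨symmDiff A S, ?_, by simp⟩
      rw [Finset.mem_filter]
      refine ⟨hA.2, ?_⟩
      rw [Finset.mem_symmDiff]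
      exact Or.inr ⟨hi, hiA⟩
  have h5 : (D.filter (fun A => symmDiff A S ∈ D)).card ≤
      2 * (D.filter (fun A => i ∈ A)).card := by
    calc _ ≤ _ := Finset.card_le_card h4
      _ ≤ _ := Finset.card_union_le _ _
      _ ≤ (D.filter (fun A => i ∈ A)).card + (D.filter (fun A => i ∈ A)).card :=
          Nat.add_le_add_left Finset.card_image_le _
      _ = 2 * (D.filter (fun A => i ∈ A)).card := by ring
  exact_mod_cast h5

theorem count_empty (D : Finset (Finset (Fin n))) :
    D.filter (fun A => symmDiff A (∅ : Finset (Fin n)) ∈ D) = D := by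
  apply Finset.filter_true_of_mem
  intro A hA
  have : symmDiff A (∅ : Finset (Fin n)) = A := by
    have := symmDiff_bot A
    simpa using this
  rw [this]
  exact hA

/-- Weighted form: for every way `w` of splitting the squares of the Fourier coefficients. -/
theorem main_split (D : Finset (Finset (Fin n))) (hD : ∀ A ∈ D, ∀ B, B ⊆ A → B ∈ D)
    (f : Finset (Fin n) → ℝ) (hf : ∀ A B, A ⊆ B → f A ≤ f B)
    (w : Finset (Fin n) → Fin n → ℝ) (hw0 : ∀ S i, 0 ≤ w S i)
    (hwS : ∀ S i, i ∉ S → w S i = 0) (hwsum : ∀ S, S.Nonempty → ∑ i, w S i = fh f S ^ 2) :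
    ∑ A ∈ D, (max (f A) 0) ^ 2 + ∑ A ∈ D, (max (-f Aᶜ) 0) ^ 2
      ≤ fh f ∅ ^ 2 * (D.card : ℝ)
        + 2 * ∑ i, (∑ S, w S i) * ((D.filter (fun A => i ∈ A)).card : ℝ) := by
  classical
  refine (main D hD f hf).trans ?_
  rw [double_sum D (fun S => fh f S ^ 2), ← Finset.add_sum_erase univ _ (Finset.mem_univ ∅),
    count_empty]
  apply add_le_add le_rfl
  have h1 : ∑ i, (∑ S, w S i) * ((D.filter (fun A => i ∈ A)).card : ℝ)
      = ∑ S, ∑ i, w S i * ((D.filter (fun A => i ∈ A)).card : ℝ) := by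
    rw [Finset.sum_comm]
    exact Finset.sum_congr rfl fun i _ => by rw [Finset.sum_mul]
  have h0 : ∑ i, w ∅ i * ((D.filter (fun A => i ∈ A)).card : ℝ) = 0 :=
    Finset.sum_eq_zero fun i _ => by rw [hwS ∅ i (Finset.notMem_empty i), zero_mul]
  rw [h1, ← Finset.add_sum_erase univ _ (Finset.mem_univ ∅), h0, zero_add, Finset.mul_sum]
  refine Finset.sum_le_sum fun S hS => ?_
  have hne : S.Nonempty := Finset.nonempty_iff_ne_empty.mpr (Finset.ne_of_mem_erase hS)
  rw [← hwsum S hne, Finset.sum_mul, Finset.mul_sum]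
  refine Finset.sum_le_sum fun i _ => ?_
  by_cases hi : i ∈ S
  · have := mul_le_mul_of_nonneg_left (count_le D S i hi) (hw0 S i)
    linarith
  · rw [hwS S i hi]
    simp

end Pool.Agent.H626.Op
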